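import Mathlib

set_option autoImplicit false
set_option maxRecDepth 100000

namespace Pool.Agent.Results.MP_74392e_co.Six3

open SimpleGraph

/-- Every vertex has exactly `k` neighbours and every edge lies in exactly `t` triangles. -/
def Reg {V : Type} (G : SimpleGraph V) (k t : ℕ) : Prop :=
  (∀ v, (G.neighborSet v).encard = k) ∧ ∀ v w, G.Adj v w → (G.commonNeighbors v w).encard = t

lemma reg_of {n : ℕ} (G : SimpleGraph (Fin n)) [DecidableRel G.Adj] (k t : ℕ)
    (h1 : ∀ v, (Finset.univ.filter (G.Adj v)).card = k)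
    (h2 : ∀ v w, G.Adj v w → (Finset.univ.filter (fun u => G.Adj v u ∧ G.Adj w u)).card = t) :
    Reg G k t := by
  constructor
  · intro v
    rw [← h1 v, ← Set.encard_coe_eq_coe_finsetCard]
    congr 1; ext u; simp
  · intro v w h
    rw [← h2 v w h, ← Set.encard_coe_eq_coe_finsetCard]
    congr 1; ext u; simp [mem_commonNeighbors]

def G1 : SimpleGraph (Fin 9) where
  Adj a b := a.val / 3 ≠ b.val / 3
  symm := ⟨fun _ _ h => h.symm⟩
  loopless := ⟨fun _ h => h rfl⟩

instance : DecidableRel G1.Adj := fun a b => by unfold G1; infer_instance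

def G2 : SimpleGraph (Fin 10) where
  Adj a b := a ≠ b ∧ (a.val, b.val) ∉ [(0, 1), (1, 2), (2, 3), (3, 4), (4, 0), (0, 5), (1, 6), (2, 7),
    (3, 8), (4, 9), (5, 7), (7, 9), (9, 6), (6, 8), (8, 5), (1, 0), (2, 1), (3, 2), (4, 3), (0, 4),
    (5, 0), (6, 1), (7, 2), (8, 3), (9, 4), (7, 5), (9, 7), (6, 9), (8, 6), (5, 8)]
  symm := ⟨by decide⟩
  loopless := ⟨fun _ h => h.1 rfl⟩

instance : DecidableRel G2.Adj := fun a b => by unfold G2; infer_instance

lemma no_geo {V : Type} (G : SimpleGraph V) (h : Reg G 6 3) (u v w x : V) (huv : G.Adj u v)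
    (hvw : G.Adj v w) (hwx : G.Adj w x) (huw : ¬G.Adj u w) (huw' : u ≠ w) (hux : ¬G.Adj u x)
    (hux' : u ≠ x) (h3 : ∀ y, G.Adj u y → ¬G.Adj y x) : False := by
  classical
  have fin : ∀ a, (G.neighborSet a).Finite := fun a =>
    Set.finite_of_encard_eq_coe (h.1 a)
  let N : V → Finset V := fun a => (fin a).toFinset
  have mN : ∀ a b, b ∈ N a ↔ G.Adj a b := fun a b => by simp [N]
  have cN : ∀ a, (N a).card = 6 := fun a => by
    have := h.1 a
    rw [(fin a).encard_eq_coe_toFinset_card] at this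
    exact_mod_cast this
  have cC : ∀ a b, G.Adj a b → (N a ∩ N b).card = 3 := fun a b hab => by
    have := h.2 a b hab
    have e : G.commonNeighbors a b = ((N a ∩ N b : Finset V) : Set V) := by
      ext y; simp [mN, mem_commonNeighbors]
    rw [e, Set.encard_coe_eq_coe_finsetCard] at this
    exact_mod_cast this
  have s1 : (N v ∩ N u) ∪ (N v ∩ N w) ⊆ ((N v).erase u).erase w := by
    intro y hy
    simp only [Finset.mem_union, Finset.mem_inter, Finset.mem_erase, mN] at hy ⊢
    rcases hy with ⟨a, b⟩ | ⟨a, b⟩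
    · exact ⟨fun e => huw (e ▸ b), b.ne', a⟩
    · exact ⟨b.ne', fun e => huw (e ▸ b.symm), a⟩
  have c1 := Finset.card_le_card s1
  rw [Finset.card_erase_of_mem (by simp [mN, hvw, huw'.symm]),
    Finset.card_erase_of_mem (by simp [mN, huv.symm]), cN] at c1
  have c2 := Finset.card_union_add_card_inter (N v ∩ N u) (N v ∩ N w)
  rw [cC _ _ huv.symm, cC _ _ hvw] at c2
  have s2 : insert v (N v ∩ N u ∩ (N v ∩ N w)) ∪ insert x (N w ∩ N x) ⊆ N w := by
    intro y hy
    simp only [Finset.mem_union, Finset.mem_inter, Finset.mem_insert, mN] at hy ⊢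
    rcases hy with (rfl | ⟨_, _, a⟩) | (rfl | ⟨a, _⟩)
    exacts [hvw.symm, a, hwx, a]
  have d : Disjoint (insert v (N v ∩ N u ∩ (N v ∩ N w))) (insert x (N w ∩ N x)) := by
    rw [Finset.disjoint_left]
    intro y h1 h2
    simp only [Finset.mem_inter, Finset.mem_insert, mN] at h1 h2
    have a : G.Adj u y := by
      rcases h1 with rfl | ⟨⟨_, a⟩, _⟩
      exacts [huv, a]
    rcases h2 with rfl | ⟨_, b⟩
    exacts [hux a, h3 y a b.symm]
  have c3 := Finset.card_le_card s2
  rw [Finset.card_union_of_disjoint d, Finset.card_insert_of_notMem (by simp [mN]),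
    Finset.card_insert_of_notMem (by simp [mN]), cC _ _ hwx, cN] at c3
  omega

theorem result : ∃ k t : ℕ, 1 ≤ k ∧
    (∃ (V₁ V₂ : Type) (G₁ : SimpleGraph V₁) (G₂ : SimpleGraph V₂), G₁.Connected ∧ Reg G₁ k t ∧
      G₂.Connected ∧ Reg G₂ k t ∧ IsEmpty (G₁ ≃g G₂)) ∧
    ∀ (V : Type) (G : SimpleGraph V), G.Connected → Reg G k t → Finite V := by
  refine ⟨6, 3, by norm_num, ⟨Fin 9, Fin 10, G1, G2, by decide +kernel,
    reg_of _ _ _ (by decide +kernel) (by decide +kernel), by decide +kernel,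
    reg_of _ _ _ (by decide +kernel) (by decide +kernel), ⟨fun e => ?_⟩⟩, fun V G hc h => ?_⟩
  · simpa using Fintype.card_congr e.toEquiv
  obtain ⟨u⟩ := hc.nonempty
  let B : Set V := {x | u = x ∨ G.Adj u x ∨ ∃ y, G.Adj u y ∧ G.Adj y x}
  have step : ∀ w x, w ∈ B → G.Adj w x → x ∈ B := by
    intro w x hw hwx
    by_contra hx
    simp only [B, Set.mem_ofPred_eq, not_or, not_exists, not_and] at hx
    by_cases e : u = w
    · exact hx.2.1 (e ▸ hwx)
    by_cases e' : G.Adj u w
    · exact hx.2.2 w e' hwx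
    rcases hw with a | a | ⟨v, a, b⟩
    · exact e a
    · exact e' a
    · exact no_geo G h u v w x a b hwx e' e hx.2.1 hx.1 hx.2.2
  have all : ∀ a b (_ : G.Walk a b), a ∈ B → b ∈ B := by
    intro a b p
    induction p with
    | nil => exact id
    | cons hab _ ih => exact fun ha => ih (step _ _ ha hab)
  have fin : ∀ a, (G.neighborSet a).Finite := fun a => Set.finite_of_encard_eq_coe (h.1 a)
  have hB : B.Finite := by
    refine (((fin u).union ((fin u).biUnion fun y _ => fin y)).insert u).subset ?_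
    rintro x (rfl | a | ⟨y, a, b⟩)
    · simp
    · exact Or.inr (Or.inl a)
    · exact Or.inr (Or.inr (Set.mem_biUnion a b))
  rw [← Set.finite_univ_iff]
  refine hB.subset fun x _ => ?_
  obtain ⟨p⟩ := hc.preconnected u x
  exact all _ _ p (Or.inl rfl)

end Pool.Agent.Results.MP_74392e_co.Six3
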